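import Pool.Agent.TH423.PO.All
import Pool.Agent.TH423.DS.Member
import Pool.Agent.TH423.DS.Arith
import Pool.Agent.TH423.DS.Sieve

/-!
Two linear forms with small constant terms and polynomials, all uniformly: the counting statement for
arbitrary pairs of completely additive functions (helper576; the family of rows and columns is the one
of `TH423.PO.tct`).
-/

set_option autoImplicit false

open Finset Polynomial

namespace Pool.Agent.N576.UD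

open Pool.Agent.H661R3.OP (Rough)
open Pool.Agent.TH423.SH (dd)
open Pool.Agent.TH423.PO
open Pool.Agent.TH423.DS (Rough.mul Rough.of_mul_left sieve_poly zmod_dvd eval_cast map_ne_zero_of
  exists_nst comp_lin)

/-- completely additive functions -/
def Additive {Γ : Type} [AddCommGroup Γ] (F : ℕ → Γ) : Prop :=
  ∀ r s : ℕ, r ≠ 0 → s ≠ 0 → F (r * s) = F r + F s

theorem Additive.one {Γ : Type} [AddCommGroup Γ] {F : ℕ → Γ} (hF : Additive F) : F 1 = 0 := by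
  have := hF 1 1 one_ne_zero one_ne_zero
  rw [mul_one] at this
  simpa using this

theorem add_list {Γ : Type} [AddCommGroup Γ] {F G : ℕ → Γ} (hF : Additive F) (hG : Additive G)
    (γ : Γ) (l : List ℕ) (h0 : ∀ p ∈ l, p ≠ 0) (hl : ∀ p ∈ l, F p + G p = γ) :
    F l.prod + G l.prod = l.length • γ := by
  induction l with
  | nil => simp [hF.one, hG.one]
  | cons p l ih =>
    have hl0 : l.prod ≠ 0 := fun h => h0 0 (List.mem_cons_of_mem _ (List.prod_eq_zero_iff.1 h)) rfl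
    rw [List.prod_cons, hF p _ (h0 p List.mem_cons_self) hl0,
      hG p _ (h0 p List.mem_cons_self) hl0, List.length_cons, add_nsmul, one_nsmul,
      ← ih (fun q hq => h0 q (List.mem_cons_of_mem _ hq))
        (fun q hq => hl q (List.mem_cons_of_mem _ hq)), ← hl p List.mem_cons_self]
    abel

theorem add_card {Γ : Type} [AddCommGroup Γ] {F G : ℕ → Γ} (hF : Additive F) (hG : Additive G)
    (γ : Γ) (d : ℕ) (hd : d ≠ 0) (h : ∀ q : ℕ, q.Prime → q ∣ d → F q + G q = γ) :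
    F d + G d = (ArithmeticFunction.cardFactors d) • γ := by
  have h1 := add_list hF hG γ d.primeFactorsList
    (fun p hp => (Nat.prime_of_mem_primeFactorsList hp).ne_zero)
    (fun p hp => h p (Nat.prime_of_mem_primeFactorsList hp) (Nat.dvd_of_mem_primeFactorsList hp))
  rw [Nat.prod_primeFactorsList hd] at h1
  rw [h1, ArithmeticFunction.cardFactors_apply]

/-- the integers that are counted -/
def Ex {Γ : Type} [AddCommGroup Γ] (a₁ a₂ b₁ b₂ : ℤ) {s : ℕ} (g : Fin s → ℤ[X]) (F₁ F₂ : ℕ → Γ)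
    (T : Set Γ) (Y X : ℕ) : Set ℕ :=
  {n : ℕ | 1 ≤ n ∧ n ≤ X ∧ 0 < a₁ * n + b₁ ∧ 0 < a₂ * n + b₂ ∧ Rough Y (a₁ * n + b₁) ∧
    Rough Y (a₂ * n + b₂) ∧ (∀ j, Rough Y ((g j).eval (n : ℤ))) ∧
    F₁ (a₁ * n + b₁ : ℤ).natAbs + F₂ (a₂ * n + b₂ : ℤ).natAbs ∈ T}

theorem Ex_finite {Γ : Type} [AddCommGroup Γ] (a₁ a₂ b₁ b₂ : ℤ) {s : ℕ} (g : Fin s → ℤ[X])
    (F₁ F₂ : ℕ → Γ) (T : Set Γ) (Y X : ℕ) : (Ex a₁ a₂ b₁ b₂ g F₁ F₂ T Y X).Finite :=
  (Set.finite_Iic X).subset fun _ hn => hn.2.1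

/-- membership -/
theorem mem_Ex {Γ : Type} [AddCommGroup Γ] {a₁ a₂ b₁ b₂ : ℤ} {s : ℕ} {g : Fin s → ℤ[X]}
    {F₁ F₂ : ℕ → Γ} {T : Set Γ} {Y X : ℕ} {L R d L' R' : ℕ} {n S U : ℤ} {γ : Γ} {j : ℕ}
    (hF₁ : Additive F₁) (hF₂ : Additive F₂) (hd : 0 < d) (hL : L = d * L') (hR : R = d * R')
    (hL0 : 0 < L) (hR0 : 0 < R)
    (hn1 : a₁ * n + b₁ = L' * S) (hn2 : a₂ * n + b₂ = R' * U) (hS : 0 < S) (hU : 0 < U)
    (hLr : Rough Y (L : ℤ)) (hRr : Rough Y (R : ℤ)) (hSr : Rough Y S) (hUr : Rough Y U)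
    (hE : ∀ j, Rough Y ((g j).eval n)) (hn : 1 ≤ n) (hnX : n ≤ X)
    (hdγ : F₁ d + F₂ d = j • γ)
    (hT : (F₁ L + F₂ U.natAbs) + (F₁ S.natAbs + F₂ R) - j • γ ∈ T) :
    n.toNat ∈ Ex a₁ a₂ b₁ b₂ g F₁ F₂ T Y X := by
  have hnn : ((n.toNat : ℕ) : ℤ) = n := Int.toNat_of_nonneg (by linarith)
  have hL'0 : 0 < L' := Nat.pos_of_ne_zero (by rintro rfl; simp at hL; omega)
  have hR'0 : 0 < R' := Nat.pos_of_ne_zero (by rintro rfl; simp at hR; omega)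
  have hL'z : (0 : ℤ) < L' := by exact_mod_cast hL'0
  have hR'z : (0 : ℤ) < R' := by exact_mod_cast hR'0
  have hL'r : Rough Y (L' : ℤ) := by
    have : (L : ℤ) = L' * d := by rw [hL]; push_cast; ring
    rw [this] at hLr
    exact Rough.of_mul_left hLr
  have hR'r : Rough Y (R' : ℤ) := by
    have : (R : ℤ) = R' * d := by rw [hR]; push_cast; ring
    rw [this] at hRr
    exact Rough.of_mul_left hRr
  have hSn : S.natAbs ≠ 0 := Int.natAbs_ne_zero.mpr hS.ne'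
  have hUn : U.natAbs ≠ 0 := Int.natAbs_ne_zero.mpr hU.ne'
  refine ⟨by omega, by omega, ?_, ?_, ?_, ?_, fun j => ?_, ?_⟩
  · rw [hnn, hn1]; positivity
  · rw [hnn, hn2]; positivity
  · rw [hnn, hn1]; exact Rough.mul hL'r hSr
  · rw [hnn, hn2]; exact Rough.mul hR'r hUr
  · rw [hnn]; exact hE j
  · rw [hnn, hn1, hn2, Int.natAbs_mul, Int.natAbs_natCast, Int.natAbs_mul, Int.natAbs_natCast,
      hF₁ _ _ hL'0.ne' hSn, hF₂ _ _ hR'0.ne' hUn]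
    rw [hL, hR, hF₁ _ _ hd.ne' hL'0.ne', hF₂ _ _ hd.ne' hR'0.ne', ← hdγ] at hT
    have e : F₁ L' + F₁ S.natAbs + (F₂ R' + F₂ U.natAbs) =
        (F₁ d + F₁ L' + F₂ U.natAbs) + (F₁ S.natAbs + (F₂ d + F₂ R')) - (F₁ d + F₂ d) := by abel
    rw [e]
    exact hT

/-- a good residue class -/
theorem exists_n2 (K : ℕ) (W₂ : ℕ) (hW₂ : 1 ≤ W₂) (hW : ∀ p : ℕ, p.Prime → (p ∣ W₂ ↔ p ≤ K))
    (a₁ a₂ b₁ b₂ : ℤ) (ha₁ : 1 ≤ a₁) {s : ℕ} (g : Fin s → ℤ[X])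
    (hadm : ∀ p : ℕ, p.Prime → ∃ n : ℤ, ¬ (p : ℤ) ∣ a₁ * n + b₁ ∧ ¬ (p : ℤ) ∣ a₂ * n + b₂ ∧
      ∀ j, ¬ (p : ℤ) ∣ (g j).eval n) : ∃ nst : ℤ, 0 ≤ a₁ * nst + b₁ ∧
    a₁ * nst + b₁ < a₁ * W₂ ∧
    ∀ p : ℕ, p.Prime → p ∣ W₂ → ¬ (p : ℤ) ∣ a₁ * nst + b₁ ∧ ¬ (p : ℤ) ∣ a₂ * nst + b₂ ∧
      ∀ j, ¬ (p : ℤ) ∣ (g j).eval nst := by
  obtain ⟨n0, h1, h3⟩ := exists_nst K ((C a₁ * X + C b₁) * (C a₂ * X + C b₂)) g (by
    intro p hp
    obtain ⟨n, g1, g2, g3⟩ := hadm p hp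
    refine ⟨n, fun h => ?_, g3⟩
    simp only [eval_mul, eval_add, eval_C, eval_X] at h
    rcases (Nat.prime_iff_prime_int.1 hp).dvd_or_dvd h with h | h
    · exact g1 h
    · exact g2 h)
  obtain ⟨c, hc⟩ : ∃ c : ℤ, c = (a₁ * n0 + b₁) / (a₁ * W₂) := ⟨_, rfl⟩
  have hWz : (1 : ℤ) ≤ W₂ := by exact_mod_cast hW₂
  have hpos : 0 < a₁ * (W₂ : ℤ) := by nlinarith
  have hmod := Int.emod_add_mul_ediv (a₁ * n0 + b₁) (a₁ * W₂)
  have hmod0 := Int.emod_nonneg (a₁ * n0 + b₁) hpos.ne'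
  have hmod1 := Int.emod_lt_of_pos (a₁ * n0 + b₁) hpos
  rw [← hc] at hmod
  have key : a₁ * (n0 - W₂ * c) + b₁ = (a₁ * n0 + b₁) % (a₁ * W₂) := by
    linear_combination -hmod
  refine ⟨n0 - W₂ * c, ?_, ?_, fun p hp hpW => ?_⟩
  · rw [key]; exact hmod0
  · rw [key]; exact hmod1
  · have hpW' : (p : ℤ) ∣ W₂ := by exact_mod_cast hpW
    have hle : p ≤ K := (hW p hp).1 hpW
    have hpn : (p : ℤ) ∣ n0 - (n0 - W₂ * c) := by
      have : n0 - (n0 - W₂ * c) = W₂ * c := by ring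
      rw [this]
      exact hpW'.mul_right _
    have aux : ∀ a b : ℤ, ¬ (p : ℤ) ∣ a * n0 + b → ¬ (p : ℤ) ∣ a * (n0 - W₂ * c) + b := by
      intro a b h hd
      apply h
      have : a * n0 + b = (a * (n0 - W₂ * c) + b) + W₂ * (a * c) := by ring
      rw [this]
      exact dvd_add hd (hpW'.mul_right _)
    have h1p := h1 p hp hle
    simp only [eval_mul, eval_add, eval_C, eval_X] at h1p
    refine ⟨aux _ _ fun h => h1p (h.mul_right _), aux _ _ fun h => h1p (h.mul_left _),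
      fun j h => h3 j p hp hle ?_⟩
    have h4 := hpn.trans (sub_dvd_eval_sub n0 (n0 - W₂ * c) (g j))
    have h5 : (g j).eval n0 = ((g j).eval n0 - (g j).eval (n0 - W₂ * c)) +
        (g j).eval (n0 - W₂ * c) := by ring
    rw [h5]
    exact dvd_add h4 h

/-- linear sequences modulo a large prime -/
theorem lin_large (l : ℕ) (hl : l.Prime) (c d : ℤ) (t₀ : ℕ) (hc : ¬ (l : ℤ) ∣ c) (e : ℕ)
    (he : 1 ≤ e) : ∃ h : Polynomial (ZMod l), h ≠ 0 ∧ h.natDegree ≤ e ∧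
      ∀ t : ℕ, ((l : ℤ) ∣ c * ((t₀ + t : ℕ) : ℤ) + d ↔ h.eval (t : ZMod l) = 0) := by
  have : Fact l.Prime := ⟨hl⟩
  rw [zmod_dvd] at hc
  refine ⟨C (c : ZMod l) * X + C ((c : ZMod l) * t₀ + d), ?_, ?_, fun t => ?_⟩
  · intro h
    have h1 := natDegree_linear (a := (c : ZMod l)) (b := (c : ZMod l) * t₀ + d) hc
    rw [h, natDegree_zero] at h1
    exact absurd h1 (by norm_num)
  · exact (natDegree_linear_le).trans he
  · rw [zmod_dvd]
    simp only [eval_add, eval_mul, eval_C, eval_X]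
    push_cast
    constructor <;> intro h <;> linear_combination h

/-- polynomials of linear sequences modulo a large prime -/
theorem pol_large (l : ℕ) (hl : l.Prime) (g : ℤ[X]) (hg : ∃ n : ℤ, ¬ (l : ℤ) ∣ g.eval n)
    (c d : ℤ) (t₀ : ℕ) (hc : ¬ (l : ℤ) ∣ c) (e : ℕ) (he : g.natDegree ≤ e) :
    ∃ h : Polynomial (ZMod l), h ≠ 0 ∧ h.natDegree ≤ e ∧
      ∀ t : ℕ, ((l : ℤ) ∣ g.eval (d + c * ((t₀ + t : ℕ) : ℤ)) ↔ h.eval (t : ZMod l) = 0) := by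
  have : Fact l.Prime := ⟨hl⟩
  have hg0 := map_ne_zero_of g hg
  rw [zmod_dvd] at hc
  obtain ⟨h1, h2⟩ := comp_lin _ hg0 (c : ZMod l) ((c : ZMod l) * t₀ + d) hc
  refine ⟨_, h1, ?_, fun t => ?_⟩
  · rw [h2]
    exact natDegree_map_le.trans he
  · rw [zmod_dvd, eval_cast, eval_comp]
    simp only [eval_add, eval_mul, eval_C, eval_X]
    push_cast
    have e1 : (d : ZMod l) + c * (t₀ + t) = c * t + (c * t₀ + d) := by ring
    rw [e1]

end Pool.Agent.N576.UD
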