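import Pool.Agent.N576.UD.Core

/-!
Two linear forms with small constant terms and polynomials, all uniformly: the counting statement for
arbitrary pairs of completely additive functions (helper576; the family of rows and columns is the one
of `TH423.PO.tct`).
-/

set_option autoImplicit false

open Finset Polynomial

namespace Pool.Agent.N576.UD

open Pool.Agent.H661R3.OP (Rough)
open Pool.Agent.TH423.SH (dd)
open Pool.Agent.TH423.PO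
open Pool.Agent.TH423.DS (Rough.mul Rough.of_mul_left sieve_poly zmod_dvd eval_cast map_ne_zero_of
  exists_nst comp_lin)

theorem count (Γ : Type) [AddCommGroup Γ] [Finite Γ] (γ : Γ) (q₀ : ℕ) (hq₀ : 0 < q₀)
    (s Dg a₁ a₂ : ℕ) (ha₁ : 1 ≤ a₁) (ha₂ : 1 ≤ a₂) :
    ∃ C Y₀ : ℕ, 2 ≤ Y₀ ∧
    ∀ Y X : ℕ, Y₀ ≤ Y → Y ^ C ≤ X → ∀ (b₁ b₂ : ℤ) (g : Fin s → ℤ[X]),
    |b₁| * (Y : ℤ) ^ C ≤ X → |b₂| * (Y : ℤ) ^ C ≤ X → (∀ j, (g j).natDegree ≤ Dg) →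
    (∀ p : ℕ, p.Prime → ∃ n : ℤ, ¬ (p : ℤ) ∣ a₁ * n + b₁ ∧ ¬ (p : ℤ) ∣ a₂ * n + b₂ ∧
      ∀ j, ¬ (p : ℤ) ∣ (g j).eval n) →
    ∀ F₁ F₂ : ℕ → Γ, Additive F₁ → Additive F₂ →
    (∀ p : ℕ, p.Prime → p % q₀ = 1 % q₀ → Y < p → p ≤ Y ^ C → F₁ p + F₂ p = γ) →
    ∀ T : Set Γ, (∀ h : Γ, ∃ j : ℕ, h - j • γ ∈ T) →
    X ≤ Y ^ C * (Ex (a₁ : ℤ) a₂ b₁ b₂ g F₁ F₂ T Y X).ncard := by
  classical
  have : Fintype Γ := Fintype.ofFinite Γ
  have hk1 : 1 ≤ Fintype.card Γ := Fintype.card_pos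
  obtain ⟨m, W₀, hm, hW₀, HC⟩ := ccp_all (Fintype.card Γ) q₀ hk1 hq₀ Γ Γ
  obtain ⟨NZ, hNZ⟩ : ∃ NZ : ℕ, NZ = Fintype.card (Fin m → Γ) := ⟨_, rfl⟩
  obtain ⟨K, hK⟩ : ∃ K : ℕ, K = m + NZ + m * NZ * (s * Dg) + a₁ + a₂ + W₀ := ⟨_, rfl⟩
  obtain ⟨W₂, hW₂⟩ : ∃ W₂ : ℕ, W₂ = W₀ * a₁ * a₂ * (2 * K).factorial := ⟨_, rfl⟩
  have hK1 : 1 ≤ K := by omega
  have hW₂pos : 1 ≤ W₂ := by
    rw [hW₂]
    exact Nat.mul_pos (Nat.mul_pos (Nat.mul_pos hW₀ ha₁) ha₂) (Nat.factorial_pos _)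
  have ha₁W : a₁ ∣ W₂ := ⟨W₀ * a₂ * (2 * K).factorial, by rw [hW₂]; ring⟩
  have ha₂W : a₂ ∣ W₂ := ⟨W₀ * a₁ * (2 * K).factorial, by rw [hW₂]; ring⟩
  have hprW : ∀ p : ℕ, p.Prime → (p ∣ W₂ ↔ p ≤ 2 * K) := by
    intro p hp
    constructor
    · intro h
      rw [hW₂] at h
      rcases (hp.dvd_mul).1 h with h | h
      · rcases (hp.dvd_mul).1 h with h | h
        · rcases (hp.dvd_mul).1 h with h | h
          · have := Nat.le_of_dvd hW₀ h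
            omega
          · have := Nat.le_of_dvd ha₁ h
            omega
        · have := Nat.le_of_dvd ha₂ h
          omega
      · exact (hp.dvd_factorial).1 h
    · intro hle
      rw [hW₂]
      exact ((hp.dvd_factorial).mpr hle).mul_left _
  obtain ⟨W, hW⟩ : ∃ W : ℕ, W = a₁ * a₂ * W₂ ^ 2 := ⟨_, rfl⟩
  have hWpos : 1 ≤ W := by
    rw [hW]; exact Nat.mul_pos (Nat.mul_pos ha₁ ha₂) (pow_pos hW₂pos 2)
  have hW₀W : W₀ ∣ W := by
    rw [hW]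
    have : W₀ ∣ W₂ := ⟨a₁ * a₂ * (2 * K).factorial, by rw [hW₂]; ring⟩
    exact (this.trans (Dvd.intro_left (W₂ ^ 1) (by ring))).mul_left _
  obtain ⟨Bd, Y₁, hBd, HC'⟩ := HC W hW₀W hWpos
  obtain ⟨C₁, Y₂, H1⟩ := st1 m (Fin m → Γ) a₁ a₂ W₂ Bd ha₁ ha₂ hW₂pos ha₁W ha₂W
    (fun p hp hle => (hprW p hp).2 (by rw [← hNZ] at hle; omega))
  obtain ⟨CS, HS⟩ := sieve_poly K hK1
  obtain ⟨C₂, hC₂⟩ : ∃ C₂ : ℕ, C₂ = C₁ + Bd + 4 := ⟨_, rfl⟩
  obtain ⟨C₃, hC₃⟩ : ∃ C₃ : ℕ, C₃ = 3 * C₂ + 1 := ⟨_, rfl⟩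
  refine ⟨C₃ + CS + 8, Y₁ + Y₂ + a₁ + a₂ + W₂ + m + 2 * (m * NZ) + 16, by omega, ?_⟩
  intro Y X hY hYX b₁ b₂ g hb₁ hb₂ hg hadm F₁ F₂ hF₁ hF₂ hFγ T₀ hT₀
  choose jT hjT using hT₀
  have hY1 : 1 ≤ Y := by omega
  obtain ⟨x, y, u, hxy, hu, hcop⟩ := HC' Y (by omega)
    (fun z β => (jT (z + β) : ZMod _))
  obtain ⟨α, hαlow, hαup, hαmod, hdiv, hLr, hRr⟩ := H1 Y (by omega) x y
    (fun i z => ∃ β, u z β = i) (by rw [← hW]; exact hxy)
    (by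
      rintro i z ⟨β, rfl⟩ q hq hqd
      rw [← hW] at hqd
      exact ((hu z β).2.2 q hq hqd).2)
    (by
      rintro i z i' z' ⟨β, rfl⟩ ⟨β', rfl⟩ hne
      rw [← hW]
      exact hcop z β z' β' hne)
  rw [← hW] at hdiv
  obtain ⟨nst, hn0, hn1, hnp⟩ := exists_n2 (2 * K) W₂ hW₂pos hprW a₁ a₂ b₁ b₂
    (by exact_mod_cast ha₁) g hadm
  -- abbreviations
  obtain ⟨Lf, hLf⟩ : ∃ Lf : Fin m → ℕ, ∀ i, Lf i = α + a₁ * W₂ * ((i : ℕ) + 1) :=
    ⟨_, fun _ => rfl⟩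
  obtain ⟨Rf, hRf⟩ : ∃ Rf : (Fin m → Γ) → ℕ, ∀ z, Rf z =
    a₂ * α * W₂ * x z + y z := ⟨_, fun _ => rfl⟩
  have hLr' : ∀ i, Rough Y (Lf i : ℤ) := fun i => by rw [hLf]; exact hLr i
  have hRr' : ∀ z, Rough Y (Rf z : ℤ) := fun z => by rw [hRf]; exact hRr z
  have hα1 : 1 ≤ α := le_trans (Nat.one_le_pow _ _ (by omega)) hαlow
  obtain ⟨al', hal'⟩ : ∃ al' : ℤ, (α : ℤ) = 1 + a₁ * W₂ * al' := by
    have h2 : (α : ℤ) ≡ 1 [ZMOD ((a₁ * W₂ : ℕ) : ℤ)] := by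
      have := (Int.natCast_modEq_iff).mpr (show α ≡ 1 [MOD a₁ * W₂] from hαmod)
      exact_mod_cast this
    obtain ⟨c, hc⟩ := h2.symm.dvd
    refine ⟨c, ?_⟩
    push_cast at hc
    linear_combination hc
  have hyW : ∀ z, ∃ y' : ℤ, (y z : ℤ) = 1 + a₁ * a₂ * W₂ ^ 2 * y' := by
    intro z
    have h2 : (y z : ℤ) ≡ 1 [ZMOD ((W : ℕ) : ℤ)] := by
      have := (Int.natCast_modEq_iff).mpr (show y z ≡ 1 [MOD W] from (hxy z).2.2.1)
      exact_mod_cast this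
    obtain ⟨c, hc⟩ := h2.symm.dvd
    refine ⟨c, ?_⟩
    rw [hW] at hc
    push_cast at hc
    linear_combination hc
  choose y' hy' using hyW
  have hddz : ∀ z (i : Fin m), ((dd W (x z) (y z) i : ℕ) : ℤ) =
      (y z : ℤ) - a₁ * a₂ * W₂ ^ 2 * ((i : ℕ) + 1 : ℕ) * x z := by
    intro z i
    have hle : W * ((i : ℕ) + 1) * x z ≤ y z := by
      refine le_trans ?_ (hxy z).2.2.2.2
      calc W * ((i : ℕ) + 1) * x z ≤ W * m * x z :=
            Nat.mul_le_mul_right _ (Nat.mul_le_mul_left _ i.2)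
        _ ≤ 2 * (W * m * x z) := by omega
        _ = 2 * W * m * x z := by ring
    unfold dd
    rw [Nat.cast_sub hle, hW]
    push_cast
    ring
  have hRL : ∀ z (i : Fin m), Rf z = a₂ * W₂ * x z * Lf i + dd W (x z) (y z) i := by
    intro z i
    zify
    rw [hddz z i, hRf, hLf]
    push_cast
    ring
  -- quotients for the used pairs
  have hused : ∀ p : {p : Fin m × (Fin m → Γ) // ∃ β, u p.2 β = p.1},
      ∃ (L' R' : ℕ) (n₀ : ℤ), 0 < dd W (x p.1.2) (y p.1.2) p.1.1 ∧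
        Lf p.1.1 = dd W (x p.1.2) (y p.1.2) p.1.1 * L' ∧
        Rf p.1.2 = dd W (x p.1.2) (y p.1.2) p.1.1 * R' ∧ (W₂ : ℤ) ∣ n₀ - nst ∧
        ∀ t : ℤ, a₁ * (n₀ + L' * Rf p.1.2 * W₂ * t) + b₁ =
          L' * (Rf p.1.2 * (a₁ * (nst + W₂ * t) + b₁) - W₂ * x p.1.2 * (a₂ * b₁ - a₁ * b₂)) ∧
        a₂ * (n₀ + L' * Rf p.1.2 * W₂ * t) + b₂ =
          R' * (a₂ * nst + b₂ + a₂ * W₂ * (al' + ((p.1.1 : ℕ) + 1 : ℕ)) * (a₁ * nst + b₁) +
            a₂ * Lf p.1.1 * W₂ * t) := by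
    rintro ⟨⟨i, z⟩, β, hβ⟩
    simp only at hβ ⊢
    have hd0 : 0 < dd W (x z) (y z) i := by
      rw [← hβ]
      exact Nat.pos_of_ne_zero (hu z β).1.ne_zero
    obtain ⟨L', hL'⟩ := hdiv i z ⟨β, hβ⟩
    rw [← hLf] at hL'
    have hdR : dd W (x z) (y z) i ∣ Rf z := by
      rw [hRL z i]
      exact dvd_add (Dvd.dvd.mul_left ⟨L', hL'⟩ _) dvd_rfl
    obtain ⟨R', hR'⟩ := hdR
    have hd0z : ((dd W (x z) (y z) i : ℕ) : ℤ) ≠ 0 := by exact_mod_cast hd0.ne'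
    have hL'z : (Lf i : ℤ) = dd W (x z) (y z) i * L' := by exact_mod_cast hL'
    have hR'z : (Rf z : ℤ) = dd W (x z) (y z) i * R' := by exact_mod_cast hR'
    obtain ⟨n₀, hn₀, hfor⟩ := pairT (a₁ := (a₁ : ℤ)) (a₂ := a₂) (b₁ := b₁) (b₂ := b₂) (W₂ := W₂)
      (α := α) (x := x z) (y := y z) (h := ((i : ℕ) + 1 : ℕ)) (d := dd W (x z) (y z) i)
      (L' := L') (R' := R') (nst := nst) (al' := al') (y' := y' z)
      (by exact_mod_cast (by omega : a₁ ≠ 0)) hd0z hal' (hy' z) (hddz z i)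
      (by rw [← hL'z, hLf]; push_cast; ring) (by rw [← hR'z, hRf]; push_cast; ring)
    refine ⟨L', R', n₀, hd0, hL', hR', hn₀, fun t => ?_⟩
    have := hfor t
    rw [← hR'z, ← hL'z] at this
    exact this
  choose L' R' n₀ hdpos hL' hR' hn₀ hfor using hused
  obtain ⟨Δ, hΔ⟩ : ∃ Δ : ℤ, Δ = a₂ * b₁ - a₁ * b₂ := ⟨_, rfl⟩
  obtain ⟨T, hT⟩ : ∃ T : ℕ, T = X / Y ^ C₃ := ⟨_, rfl⟩
  have hY16 : (16 : ℤ) ≤ Y := by exact_mod_cast (by omega : 16 ≤ Y)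
  have hYC₃ : 0 < Y ^ C₃ := pow_pos (by omega) _
  -- the forms
  have hppz : ∀ p : ℕ, p.Prime → Prime (p : ℤ) := fun p hp => Nat.prime_iff_prime_int.1 hp
  have hW₂z' : ∀ p : ℕ, p.Prime → (p : ℤ) ∣ (W₂ : ℤ) → p ≤ 2 * K := fun p hp h =>
    (hprW p hp).1 (Int.natCast_dvd_natCast.mp h)
  have ha₁p : ∀ p : ℕ, p.Prime → (p : ℤ) ∣ (a₁ : ℤ) → p ≤ 2 * K := fun p hp h =>
    (hprW p hp).1 ((Int.natCast_dvd_natCast.mp h).trans ha₁W)
  have ha₂p : ∀ p : ℕ, p.Prime → (p : ℤ) ∣ (a₂ : ℤ) → p ≤ 2 * K := fun p hp h =>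
    (hprW p hp).1 ((Int.natCast_dvd_natCast.mp h).trans ha₂W)
  -- leading coefficients and large primes
  have hlT : ∀ (i : Fin m) (p : ℕ), p.Prime → p ≤ Y → 2 * K < p →
      ¬ (p : ℤ) ∣ (a₂ : ℤ) * Lf i * W₂ := by
    intro i p hp hpY hpK hd
    rcases (hppz p hp).dvd_or_dvd hd with h | h
    · rcases (hppz p hp).dvd_or_dvd h with h | h
      · have := ha₂p p hp h
        omega
      · exact hLr' i p hp hpY h
    · have := hW₂z' p hp h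
      omega
  have hlS : ∀ z (p : ℕ), p.Prime → p ≤ Y → 2 * K < p → ¬ (p : ℤ) ∣ (Rf z : ℤ) * (a₁ * W₂) := by
    intro z p hp hpY hpK hd
    rcases (hppz p hp).dvd_or_dvd hd with h | h
    · exact hRr' z p hp hpY h
    · rcases (hppz p hp).dvd_or_dvd h with h | h
      · have := ha₁p p hp h
        omega
      · have := hW₂z' p hp h
        omega
  have hlE : ∀ (P : {p : Fin m × (Fin m → Γ) // ∃ β, u p.2 β = p.1}) (p : ℕ), p.Prime → p ≤ Y →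
      2 * K < p → ¬ (p : ℤ) ∣ (L' P : ℤ) * Rf P.1.2 * W₂ := by
    intro P p hp hpY hpK h
    rcases (hppz p hp).dvd_or_dvd h with h | h
    · rcases (hppz p hp).dvd_or_dvd h with h | h
      · have := hLr' P.1.1 p hp hpY
        rw [hL' P] at this
        push_cast at this
        exact this (h.mul_left _)
      · exact hRr' _ p hp hpY h
    · have := hW₂z' p hp h
      omega
  -- small primes
  have hsT : ∀ (i : Fin m) (p : ℕ), p.Prime → p ≤ 2 * K → ∀ t : ℤ,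
      ¬ (p : ℤ) ∣ (a₂ : ℤ) * Lf i * W₂ * t + (a₂ * nst + b₂ +
        a₂ * W₂ * (al' + ((i : ℕ) + 1 : ℕ)) * (a₁ * nst + b₁)) := by
    intro i p hp hpK t hd2
    have hpW : p ∣ W₂ := (hprW p hp).2 hpK
    have hpWz : (p : ℤ) ∣ W₂ := by exact_mod_cast hpW
    apply (hnp p hp hpW).2.1
    have e : a₂ * nst + b₂ = ((a₂ : ℤ) * Lf i * W₂ * t + (a₂ * nst + b₂ +
      a₂ * W₂ * (al' + ((i : ℕ) + 1 : ℕ)) * (a₁ * nst + b₁))) - W₂ * ((a₂ : ℤ) * Lf i * t +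
      a₂ * (al' + ((i : ℕ) + 1 : ℕ)) * (a₁ * nst + b₁)) := by ring
    rw [e]
    exact dvd_sub hd2 (hpWz.mul_right _)
  have hsS : ∀ z (p : ℕ), p.Prime → p ≤ 2 * K → ∀ t : ℤ,
      ¬ (p : ℤ) ∣ (Rf z : ℤ) * (a₁ * W₂) * t + (Rf z * (a₁ * nst + b₁) - W₂ * x z * Δ) := by
    intro z p hp hpK t hd2
    have hpW : p ∣ W₂ := (hprW p hp).2 hpK
    have hpWz : (p : ℤ) ∣ W₂ := by exact_mod_cast hpW
    apply (hnp p hp hpW).1
    have e1 : (Rf z : ℤ) = 1 + W₂ * (a₂ * α * x z + a₁ * a₂ * W₂ * y' z) := by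
      rw [hRf]; push_cast; rw [hy' z]; ring
    have e : a₁ * nst + b₁ = ((Rf z : ℤ) * (a₁ * W₂) * t +
        (Rf z * (a₁ * nst + b₁) - W₂ * x z * Δ)) +
      W₂ * (x z * Δ - (a₂ * α * x z + a₁ * a₂ * W₂ * y' z) * (a₁ * nst + b₁) -
        (Rf z : ℤ) * a₁ * t) := by
      have e2 : (Rf z : ℤ) * (a₁ * nst + b₁) = (a₁ * nst + b₁) +
        W₂ * (a₂ * α * x z + a₁ * a₂ * W₂ * y' z) * (a₁ * nst + b₁) := by
        nth_rewrite 1 [e1]; ring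
      rw [e2]; ring
    rw [e]
    exact dvd_add hd2 (hpWz.mul_right _)
  have hsE : ∀ (P : {p : Fin m × (Fin m → Γ) // ∃ β, u p.2 β = p.1})
      (j : Fin s) (p : ℕ), p.Prime → p ≤ 2 * K → ∀ t : ℤ,
      ¬ (p : ℤ) ∣ (g j).eval (n₀ P + L' P * Rf P.1.2 * W₂ * t) := by
    intro P j p hp hpK t hd2
    have hpW : p ∣ W₂ := (hprW p hp).2 hpK
    have hpWz : (p : ℤ) ∣ W₂ := by exact_mod_cast hpW
    apply (hnp p hp hpW).2.2 j
    have h1 : (p : ℤ) ∣ nst - (n₀ P + L' P * Rf P.1.2 * W₂ * t) := by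
      have e : nst - (n₀ P + L' P * Rf P.1.2 * W₂ * t) = -(n₀ P - nst) -
        W₂ * (L' P * Rf P.1.2 * t) := by ring
      rw [e]
      exact dvd_sub ((hpWz.trans (hn₀ P)).neg_right) (hpWz.mul_right _)
    have h2 := h1.trans (sub_dvd_eval_sub _ _ (g j))
    have e : (g j).eval nst = ((g j).eval nst - (g j).eval (n₀ P + L' P * Rf P.1.2 * W₂ * t)) +
      (g j).eval (n₀ P + L' P * Rf P.1.2 * W₂ * t) := by ring
    rw [e]
    exact dvd_add h2 hd2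
  obtain ⟨v, hv⟩ : ∃ v : (Fin m ⊕ ((Fin m → Γ) ⊕
      ({p : Fin m × (Fin m → Γ) // ∃ β, u p.2 β = p.1} × Fin s))) → ℕ → ℤ, v =
    Sum.elim (fun (i : Fin m) (t : ℕ) => (a₂ : ℤ) * Lf i * W₂ * ((T + t : ℕ) : ℤ) +
        (a₂ * nst + b₂ + a₂ * W₂ * (al' + ((i : ℕ) + 1 : ℕ)) * (a₁ * nst + b₁)))
      (Sum.elim (fun (z : Fin m → Γ) (t : ℕ) => (Rf z : ℤ) * (a₁ * W₂) * ((T + t : ℕ) : ℤ) +
        (Rf z * (a₁ * nst + b₁) - W₂ * x z * Δ))
      (fun (q : {p : Fin m × (Fin m → Γ) // ∃ β, u p.2 β = p.1} × Fin s) (t : ℕ) =>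
        (g q.2).eval (n₀ q.1 + L' q.1 * Rf q.1.1.2 * W₂ * ((T + t : ℕ) : ℤ)))) := ⟨_, rfl⟩
  obtain ⟨ed, hed⟩ : ∃ ed : (Fin m ⊕ ((Fin m → Γ) ⊕
      ({p : Fin m × (Fin m → Γ) // ∃ β, u p.2 β = p.1} × Fin s))) → ℕ, ed =
    Sum.elim (fun _ => 1) (Sum.elim (fun _ => 1) (fun _ => Dg)) := ⟨_, rfl⟩
  have hsum : ∑ i, ed i ≤ K := by
    rw [hed, Fintype.sum_sum_type, Fintype.sum_sum_type]
    simp only [Sum.elim_inl, Sum.elim_inr, Finset.sum_const, Finset.card_univ, Fintype.card_fin,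
      smul_eq_mul, Fintype.card_prod, mul_one]
    rw [← hNZ, hK]
    have h3 : Fintype.card {p : Fin m × (Fin m → Γ) // ∃ β, u p.2 β = p.1} ≤ m * NZ := by
      refine (Fintype.card_subtype_le _).trans ?_
      rw [Fintype.card_prod, Fintype.card_fin, hNZ]
    have h4 := Nat.mul_le_mul_right (s * Dg) h3
    rw [← mul_assoc] at h4
    omega
  have hsv := HS (Fin m ⊕ ((Fin m → Γ) ⊕
      ({p : Fin m × (Fin m → Γ) // ∃ β, u p.2 β = p.1} × Fin s))) v ed Y (by omega) hsum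
    (by
      rw [hv, hed]
      rintro (i | z | q) l hl hlY hlK
      · simp only [Sum.elim_inl]
        exact lin_large l hl _ _ T (hlT i l hl hlY hlK) 1 le_rfl
      · simp only [Sum.elim_inl, Sum.elim_inr]
        exact lin_large l hl _ _ T (hlS z l hl hlY hlK) 1 le_rfl
      · simp only [Sum.elim_inr]
        obtain ⟨n, -, -, hn⟩ := hadm l hl
        exact pol_large l hl _ ⟨n, hn q.2⟩ _ _ T (hlE q.1 l hl hlY hlK) Dg (hg q.2))
    (by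
      rw [hv]
      rintro (i | z | q) l hl hlY hlK t
      · exact hsT i l hl hlK _
      · exact hsS z l hl hlK _
      · exact hsE q.1 q.2 l hl hlK _)
    T (by
      rw [hT, Nat.le_div_iff_mul_le hYC₃, ← pow_add]
      exact (Nat.pow_le_pow_right hY1 (by omega)).trans hYX)
  -- sizes
  obtain ⟨P, hP⟩ : ∃ P : ℕ, P = Y ^ C₂ := ⟨_, rfl⟩
  have hP1 : 1 ≤ P := by rw [hP]; exact Nat.one_le_pow _ _ (by omega)
  have hPz : (1 : ℤ) ≤ P := by exact_mod_cast hP1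
  have hLP : ∀ i, Lf i ≤ P := by
    intro i
    rw [hLf, hP]
    have := i.2
    exact numLf (by omega) (by omega) (by omega) (by omega) hαup (by omega)
  have hxy' : ∀ z, x z ≤ y z := by
    intro z
    refine le_trans ?_ (hxy z).2.2.2.2
    exact Nat.le_mul_of_pos_left _ (Nat.mul_pos (Nat.mul_pos two_pos hWpos) hm)
  have hRP : ∀ z, Rf z ≤ P := by
    intro z
    rw [hRf, hP]
    exact numRf (by omega) (by omega) (by omega) (hxy' z) (hxy z).2.1 hαup (by omega)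
  have hwR : ∀ z, W₂ * x z ≤ Rf z := by
    intro z
    rw [hRf]
    have : W₂ * x z ≤ a₂ * α * (W₂ * x z) := Nat.le_mul_of_pos_left _ (Nat.mul_pos ha₂ hα1)
    calc W₂ * x z ≤ a₂ * α * (W₂ * x z) := this
      _ = a₂ * α * W₂ * x z := by ring
      _ ≤ _ := Nat.le_add_right _ _
  have hTX : Y ^ C₃ * T ≤ X := by rw [hT]; exact Nat.mul_div_le _ _
  have hTY : Y ^ 8 ≤ T := by
    rw [hT, Nat.le_div_iff_mul_le hYC₃, ← pow_add]
    exact (Nat.pow_le_pow_right hY1 (by omega)).trans hYX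
  have hTYz : (Y : ℤ) ^ 8 ≤ T := by exact_mod_cast hTY
  have hT1 : (1 : ℤ) ≤ T := (num8 hY16 hTYz).1
  have ha₁Y : (a₁ : ℤ) ≤ Y := by exact_mod_cast (by omega : a₁ ≤ Y)
  have ha₂Y : (a₂ : ℤ) ≤ Y := by exact_mod_cast (by omega : a₂ ≤ Y)
  have ha₁z : (1 : ℤ) ≤ a₁ := by exact_mod_cast ha₁
  have ha₂z : (1 : ℤ) ≤ a₂ := by exact_mod_cast ha₂
  have hW₂z : (1 : ℤ) ≤ W₂ := by exact_mod_cast hW₂pos
  have hb₁T := numTb hY1 hT hb₁
  have hb₂T := numTb hY1 hT hb₂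
  have hb₁4 : 4 * |b₁| ≤ T := (numb hY16 hTYz hb₁T).1
  have hΔ4 : 4 * |Δ| ≤ T := by
    rw [hΔ]
    exact numΔ hY16 hTYz ha₁z ha₂z ha₁Y ha₂Y hb₁T hb₂T
  have ha₁4 : 4 * (a₁ : ℤ) ≤ T := by
    have h3 := (num8 hY16 hTYz).2.2
    linarith
  have hXP : 5 * (P : ℤ) ^ 3 * T ≤ X := by
    exact_mod_cast numX hC₃ hP (by omega) hTX
  have haW : (a₁ : ℤ) * W₂ ≤ P := by
    have : a₁ * W₂ ≤ P := by
      calc a₁ * W₂ ≤ Y * Y := Nat.mul_le_mul (by omega) (by omega)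
        _ = Y ^ 2 := by ring
        _ ≤ Y ^ C₂ := Nat.pow_le_pow_right hY1 (by omega)
        _ = P := hP.symm
    exact_mod_cast this
  obtain ⟨EX, hEX⟩ : ∃ EX, EX = Ex (a₁ : ℤ) a₂ b₁ b₂ g F₁ F₂ T₀ Y X := ⟨_, rfl⟩
  have hEXfin : EX.Finite := by rw [hEX]; exact Ex_finite _ _ _ _ _ _ _ _ _ _
  rw [← hEX]
  -- covering
  have hcover : ∀ t' ∈ (range T).filter (fun t => ∀ i, Rough Y (v i t)),
      ∃ p : {p : Fin m × (Fin m → Γ) // ∃ β, u p.2 β = p.1},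
        1 ≤ n₀ p + L' p * Rf p.1.2 * W₂ * ((T + t' : ℕ) : ℤ) ∧
          (n₀ p + L' p * Rf p.1.2 * W₂ * ((T + t' : ℕ) : ℤ)).toNat ∈ EX := by
    intro t' ht'
    rw [mem_filter, mem_range] at ht'
    obtain ⟨htT, htr⟩ := ht'
    obtain ⟨t, ht⟩ : ∃ t : ℤ, t = ((T + t' : ℕ) : ℤ) := ⟨_, rfl⟩
    have ht1 : (T : ℤ) ≤ t := by rw [ht]; push_cast; omega
    have ht2 : t < (T : ℤ) + T := by rw [ht]; push_cast; omega
    rw [← ht]
    obtain ⟨δ, hδ⟩ : ∃ δ : ℤ, δ = a₁ * (nst + W₂ * t) + b₁ := ⟨_, rfl⟩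
    obtain ⟨Tt, hTt⟩ : ∃ Tt : Fin m → ℤ, ∀ i, Tt i = a₂ * nst + b₂ +
      a₂ * W₂ * (al' + ((i : ℕ) + 1 : ℕ)) * (a₁ * nst + b₁) + a₂ * Lf i * W₂ * t :=
      ⟨_, fun _ => rfl⟩
    obtain ⟨St, hSt⟩ : ∃ St : (Fin m → Γ) → ℤ, ∀ z, St z =
      Rf z * δ - W₂ * x z * Δ := ⟨_, fun _ => rfl⟩
    have hδb : (T : ℤ) ≤ δ ∧ δ ≤ 3 * P * T := by
      have e1 : δ = (a₁ * nst + b₁) + a₁ * W₂ * t := by rw [hδ]; ring
      rw [e1]
      exact numδ ha₁z hW₂z hn0 hn1 ht1 ht2 hT1 haW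
    obtain ⟨hδT, hδup⟩ := hδb
    have hw0 : ∀ z, (0 : ℤ) ≤ W₂ * x z := fun z => by positivity
    have hwRz : ∀ z, (W₂ : ℤ) * x z ≤ Rf z := fun z => by exact_mod_cast hwR z
    have hR1 : ∀ z, (1 : ℤ) ≤ Rf z := by
      intro z
      have : 1 ≤ Rf z := by
        refine le_trans ?_ (hwR z)
        exact Nat.mul_pos hW₂pos (hxy z).1
      exact_mod_cast this
    have hRPz : ∀ z, (Rf z : ℤ) ≤ P := fun z => by exact_mod_cast hRP z
    have hS1 : ∀ z, 3 * (T : ℤ) ≤ 4 * St z := fun z => by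
      rw [hSt]
      exact szS (hw0 z) (hwRz z) (hR1 z) hδT hΔ4 hT1
    have hS2 : ∀ z, St z ≤ 4 * (P : ℤ) ^ 2 * T := fun z => by
      rw [hSt]
      exact szSup (hw0 z) ((hwRz z).trans (hRPz z)) (by linarith [hR1 z]) (hRPz z) hPz
        (by linarith) hδup hΔ4 hT1
    have hLz : ∀ i : Fin m, (Lf i : ℤ) = 1 + a₁ * W₂ * (al' + ((i : ℕ) + 1 : ℕ)) := by
      intro i
      rw [hLf]
      push_cast
      rw [hal']
      ring
    have hL1 : ∀ i, (1 : ℤ) ≤ Lf i := by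
      intro i
      have : 1 ≤ Lf i := by rw [hLf]; omega
      exact_mod_cast this
    have hT2 : ∀ i, 0 < Tt i := by
      intro i
      have e1 : a₁ * Tt i = a₂ * Lf i * δ - Δ := by
        rw [hTt, hδ, hΔ]
        linear_combination (-(a₂ : ℤ) * (a₁ * nst + b₁)) * hLz i
      exact numT ha₁z ha₂z (hL1 i) hδT hΔ4 hT1 e1
    obtain ⟨z, hz⟩ : ∃ z : Fin m → Γ, ∀ i, z i = F₁ (Lf i) + F₂ (Tt i).natAbs :=
      ⟨_, fun _ => rfl⟩
    obtain ⟨β, hβ⟩ : ∃ β : Γ, β = F₁ (St z).natAbs + F₂ (Rf z) := ⟨_, rfl⟩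
    obtain ⟨i, hi⟩ : ∃ i, i = u z β := ⟨_, rfl⟩
    obtain ⟨p, hp⟩ : ∃ p : {p : Fin m × (Fin m → Γ) // ∃ β, u p.2 β = p.1},
      p = ⟨(i, z), β, hi.symm⟩ := ⟨_, rfl⟩
    have hp1 : p.1.1 = i := by rw [hp]
    have hp2 : p.1.2 = z := by rw [hp]
    obtain ⟨n, hn⟩ : ∃ n : ℤ, n = n₀ p + L' p * Rf p.1.2 * W₂ * t := ⟨_, rfl⟩
    have hf := hfor p t
    rw [← hn, hp1, hp2, ← hΔ, ← hδ, ← hSt, ← hTt] at hf
    have hdp := hdpos p
    have hLp := hL' p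
    have hRp := hR' p
    rw [hp1, hp2] at hdp hLp hRp
    have hL'1 : (1 : ℤ) ≤ L' p := by
      have : 1 ≤ L' p := by
        rcases Nat.eq_zero_or_pos (L' p) with h | h
        · rw [h] at hLp
          have := hL1 i
          rw [hLp] at this
          simp at this
        · exact h
      exact_mod_cast this
    have hL'P : (L' p : ℤ) ≤ P := by
      have : L' p ≤ P := by
        refine le_trans ?_ (hLP i)
        rw [hLp]
        exact Nat.le_mul_of_pos_left _ hdp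
      exact_mod_cast this
    obtain ⟨hn1', hn2'⟩ := szn ha₁z hL'1 hL'P (hS1 z) (hS2 z) hb₁4 ha₁4 hf.1
    have hTr : ∀ i, Rough Y (Tt i) := by
      intro i
      have := htr (Sum.inl i)
      simp only [hv, Sum.elim_inl] at this
      rw [← ht] at this
      rw [hTt, add_comm]
      exact this
    have hSr : ∀ z, Rough Y (St z) := by
      intro z
      have := htr (Sum.inr (Sum.inl z))
      simp only [hv, Sum.elim_inl, Sum.elim_inr] at this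
      rw [← ht] at this
      have e : St z = (Rf z : ℤ) * (a₁ * W₂) * t + (Rf z * (a₁ * nst + b₁) - W₂ * x z * Δ) := by
        rw [hSt, hδ]; ring
      rw [e]
      exact this
    have hEr : ∀ j, Rough Y ((g j).eval n) := by
      intro j
      have := htr (Sum.inr (Sum.inr (p, j)))
      simp only [hv, Sum.elim_inr] at this
      rw [← ht, ← hn] at this
      exact this
    have hdγ : F₁ (dd W (x z) (y z) i) + F₂ (dd W (x z) (y z) i) = (jT (z i + β)) • γ := by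
      rw [add_card hF₁ hF₂ γ _ hdp.ne' (fun q hq hqd => ?_)]
      · have h1 := (hu z β).2.1
        rw [← hi] at h1
        have h2 := (ZMod.natCast_eq_natCast_iff _ _ _).1 h1
        exact nsmul_eq_nsmul_iff_modEq.2 (h2.of_dvd (addOrderOf_dvd_card))
      · have hqd' : q ∣ dd W (x z) (y z) (u z β) := by rw [← hi]; exact hqd
        obtain ⟨h1, h2⟩ := (hu z β).2.2 q hq hqd'
        refine hFγ q hq h1 h2 ?_
        calc q ≤ dd W (x z) (y z) i := Nat.le_of_dvd hdp hqd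
          _ ≤ y z := Nat.sub_le _ _
          _ ≤ Y ^ Bd := (hxy z).2.1
          _ ≤ Y ^ (C₃ + CS + 8) := Nat.pow_le_pow_right hY1 (by omega)
    have hmem := mem_Ex (a₁ := a₁) (a₂ := a₂) (b₁ := b₁) (b₂ := b₂) (g := g) (T := T₀)
      (Y := Y) (X := X) hF₁ hF₂ hdp hLp hRp (by have := hL1 i; omega)
      (by have := hR1 z; omega) hf.1 hf.2 (by linarith [hS1 z]) (hT2 i) (hLr' i) (hRr' z) (hSr z)
      (hTr i) hEr hn1' (hn2'.trans hXP) hdγ (by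
        rw [← hβ, ← hz]
        exact hjT _)
    refine ⟨p, ?_⟩
    rw [← hn, hEX]
    exact ⟨hn1', hmem⟩
  have : Nonempty {p : Fin m × (Fin m → Γ) // ∃ β, u p.2 β = p.1} :=
    ⟨⟨(u (fun _ => 0) 0, fun _ => 0), 0, rfl⟩⟩
  choose! pf hpf using hcover
  have hcount : ((range T).filter (fun t => ∀ i, Rough Y (v i t))).card ≤ m * NZ * EX.ncard := by
    obtain ⟨E, hE⟩ : ∃ E : Finset ℕ, ∀ n, n ∈ E ↔ n ∈ EX :=
      ⟨hEXfin.toFinset, fun n => Set.Finite.mem_toFinset _⟩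
    have hEcard : EX.ncard = E.card := by
      rw [← Set.ncard_coe_finset]
      congr 1
      ext n
      rw [mem_coe, hE]
    rw [hEcard]
    have hmaps : ∀ t' ∈ (range T).filter (fun t => ∀ i, Rough Y (v i t)),
        (fun t' => ((pf t'), (n₀ (pf t') + L' (pf t') * Rf (pf t').1.2 * W₂ *
          ((T + t' : ℕ) : ℤ)).toNat)) t' ∈
          (univ : Finset {p : Fin m × (Fin m → Γ) // ∃ β, u p.2 β = p.1}) ×ˢ E := by
      intro t' ht'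
      rw [mem_product]
      exact ⟨mem_univ _, (hE _).2 (hpf t' ht').2⟩
    have hinj : Set.InjOn (fun t' => ((pf t'), (n₀ (pf t') + L' (pf t') * Rf (pf t').1.2 * W₂ *
          ((T + t' : ℕ) : ℤ)).toNat))
        ((range T).filter (fun t => ∀ i, Rough Y (v i t)) : Finset ℕ) := by
      intro t ht t' ht' heq
      rw [mem_coe] at ht ht'
      simp only [Prod.mk.injEq] at heq
      obtain ⟨e1, e2⟩ := heq
      have g1 := (hpf t ht).1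
      have g2 := (hpf t' ht').1
      rw [← e1] at e2 g2
      obtain ⟨p, hp⟩ : ∃ p, p = pf t := ⟨_, rfl⟩
      rw [← hp] at e2 g1 g2
      have g3 : n₀ p + L' p * Rf p.1.2 * W₂ * ((T + t : ℕ) : ℤ) =
          n₀ p + L' p * Rf p.1.2 * W₂ * ((T + t' : ℕ) : ℤ) := by
        have e3 := Int.toNat_of_nonneg (show 0 ≤ n₀ p + L' p * Rf p.1.2 * W₂ *
          ((T + t : ℕ) : ℤ) by linarith)
        have e4 := Int.toNat_of_nonneg (show 0 ≤ n₀ p + L' p * Rf p.1.2 * W₂ *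
          ((T + t' : ℕ) : ℤ) by linarith)
        rw [← e3, ← e4, e2]
      have hcoef : (L' p : ℤ) * Rf p.1.2 * W₂ ≠ 0 := by
        have g1 : L' p ≠ 0 := by
          intro h0
          have g2 := hL' p
          rw [h0, mul_zero, hLf] at g2
          omega
        have g3 : Rf p.1.2 ≠ 0 := by
          have g4 := hwR p.1.2
          have g5 : 0 < W₂ * x p.1.2 := Nat.mul_pos hW₂pos (hxy p.1.2).1
          omega
        have g6 : W₂ ≠ 0 := by omega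
        exact mul_ne_zero (mul_ne_zero (by exact_mod_cast g1) (by exact_mod_cast g3))
          (by exact_mod_cast g6)
      have g4 := mul_left_cancel₀ hcoef (add_left_cancel g3)
      have g5 : T + t = T + t' := by exact_mod_cast g4
      omega
    have h1 := card_le_card_of_injOn _ hmaps hinj
    rw [card_product] at h1
    refine h1.trans (Nat.mul_le_mul_right _ ?_)
    rw [Finset.card_univ]
    refine (Fintype.card_subtype_le _).trans ?_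
    rw [Fintype.card_prod, Fintype.card_fin, hNZ]
  have hfin : T ≤ Y ^ CS * (m * NZ * EX.ncard) := by
    refine hsv.trans ?_
    refine Nat.mul_le_mul_left _ (le_trans (le_of_eq ?_) hcount)
    congr
  exact numFin hY1 hT (by exact_mod_cast hT1) (by omega) hfin

end Pool.Agent.N576.UD
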