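import Pool.Agent.N576.UD.Count
import Pool.Agent.TH423.PO.MainT
import Pool.Agent.TH423.DS.Main

/-! The theorem in terms of `X ^ δ` (helper576). -/

set_option autoImplicit false

open Finset Polynomial Filter Topology

namespace Pool.Agent.N576.UD

open Pool.Agent.H661R3.OP (Rough)
open Pool.Agent.TH423.PO (params)
open Pool.Agent.TH423.DS (AlmostPrime almostPrime_of_rough)

/-- size of a polynomial value -/
theorem poly_size {D B N : ℕ} (hN : D + 1 ≤ N) (g : ℤ[X]) (hg : g.natDegree ≤ D)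
    (hc : ∀ i, |g.coeff i| ≤ (N : ℤ) ^ B) (n : ℕ) (hn : n ≤ N) :
    |g.eval (n : ℤ)| ≤ (N : ℤ) ^ (B + D + 1) := by
  rw [Polynomial.eval_eq_sum_range' (Nat.lt_succ_of_le hg)]
  refine (Finset.abs_sum_le_sum_abs _ _).trans ?_
  have hN1 : (1 : ℤ) ≤ N := by exact_mod_cast (by omega : 1 ≤ N)
  have h1 : ∀ i ∈ range (D + 1), |g.coeff i * (n : ℤ) ^ i| ≤ (N : ℤ) ^ (B + D) := by
    intro i hi
    rw [mem_range] at hi
    rw [abs_mul, abs_of_nonneg (by positivity : (0 : ℤ) ≤ (n : ℤ) ^ i), pow_add]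
    refine mul_le_mul (hc i) ?_ (by positivity) (by positivity)
    calc (n : ℤ) ^ i ≤ (N : ℤ) ^ i := pow_le_pow_left₀ (by positivity) (by exact_mod_cast hn) _
      _ ≤ (N : ℤ) ^ D := pow_le_pow_right₀ hN1 (by omega)
  refine (Finset.sum_le_sum h1).trans ?_
  rw [Finset.sum_const, card_range, nsmul_eq_mul]
  calc ((D + 1 : ℕ) : ℤ) * (N : ℤ) ^ (B + D) ≤ N * (N : ℤ) ^ (B + D) := by
        apply mul_le_mul_of_nonneg_right _ (by positivity)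
        exact_mod_cast hN
    _ = (N : ℤ) ^ (B + D + 1) := by ring

/-- the integers `1 ≤ n ≤ X` with the two forms positive and almost prime, all the `g_j n` almost
prime, and a given value of `F₁ (a₁ n + b₁) + F₂ (a₂ n + b₂)` -/
def Vals {Γ : Type} [AddCommGroup Γ] (a₁ a₂ : ℕ) (b₁ b₂ : ℤ) {s : ℕ} (g : Fin s → ℤ[X])
    (F₁ F₂ : ℕ → Γ) (δ : ℝ) (R X : ℕ) (t : Γ) : Set ℕ :=
  {n : ℕ | 1 ≤ n ∧ n ≤ X ∧ 0 < (a₁ : ℤ) * n + b₁ ∧ 0 < (a₂ : ℤ) * n + b₂ ∧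
      AlmostPrime ((X : ℝ) ^ δ) R ((a₁ : ℤ) * n + b₁) ∧
      AlmostPrime ((X : ℝ) ^ δ) R ((a₂ : ℤ) * n + b₂) ∧
      (∀ j, AlmostPrime ((X : ℝ) ^ δ) R ((g j).eval (n : ℤ))) ∧
      F₁ ((a₁ : ℤ) * n + b₁).natAbs + F₂ ((a₂ : ℤ) * n + b₂).natAbs = t}

theorem Vals_finite {Γ : Type} [AddCommGroup Γ] (a₁ a₂ : ℕ) (b₁ b₂ : ℤ) {s : ℕ}
    (g : Fin s → ℤ[X]) (F₁ F₂ : ℕ → Γ) (δ : ℝ) (R X : ℕ) (t : Γ) :
    (Vals a₁ a₂ b₁ b₂ g F₁ F₂ δ R X t).Finite :=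
  (Set.finite_Iic X).subset fun _ hn => hn.2.1

theorem main (Γ : Type) [AddCommGroup Γ] [Finite Γ] (γ : Γ) (q₀ : ℕ) (hq₀ : 0 < q₀)
    (s Dg B a₁ a₂ : ℕ) (ha₁ : 0 < a₁) (ha₂ : 0 < a₂) (ε : ℝ) (hε : 0 < ε) :
    ∃ R X₀ : ℕ, ∃ δ : ℝ, 0 < δ ∧ ∀ X : ℕ, X₀ ≤ X →
    ∀ (b₁ b₂ : ℤ) (g : Fin s → ℤ[X]), (|b₁| : ℝ) ≤ (X : ℝ) ^ (1 - ε) →
    (|b₂| : ℝ) ≤ (X : ℝ) ^ (1 - ε) →
    (∀ j, (g j).natDegree ≤ Dg ∧ ∀ i, |(g j).coeff i| ≤ (X : ℤ) ^ B) →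
    (∀ p : ℕ, p.Prime → ∃ n : ℤ, ¬ (p : ℤ) ∣ a₁ * n + b₁ ∧ ¬ (p : ℤ) ∣ a₂ * n + b₂ ∧
      ∀ j, ¬ (p : ℤ) ∣ (g j).eval n) →
    ∀ F₁ F₂ : ℕ → Γ, Additive F₁ → Additive F₂ →
    (∀ p : ℕ, p.Prime → p % q₀ = 1 % q₀ → (X : ℝ) ^ δ < p → (p : ℝ) ≤ (X : ℝ) ^ ε →
      F₁ p + F₂ p = γ) →
    ∃ h : Γ, ∀ j : ℕ,
      (X : ℝ) ^ (1 - ε) ≤ ((Vals a₁ a₂ b₁ b₂ g F₁ F₂ δ R X (h + j • γ)).ncard : ℝ) := by
  classical
  have : Fintype Γ := Fintype.ofFinite Γ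
  obtain ⟨C, Y₀, hY₀, hcount⟩ := count Γ γ q₀ hq₀ s Dg a₁ a₂ ha₁ ha₂
  obtain ⟨ε', hε'⟩ : ∃ ε' : ℝ, ε' = min ε (1 / 2) := ⟨_, rfl⟩
  have hε'0 : 0 < ε' := by rw [hε']; positivity
  have hε'ε : ε' ≤ ε := by rw [hε']; exact min_le_left _ _
  have hε'2 : ε' ≤ 1 / 2 := by rw [hε']; exact min_le_right _ _
  obtain ⟨k, hk⟩ : ∃ k : ℕ, k = Fintype.card Γ := ⟨_, rfl⟩
  obtain ⟨δ, hδ0, hδC, t, N₀, hN₀⟩ := params C k (Y₀ + a₁ + a₂) ε' hε'0 hε'2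
  obtain ⟨R, hR⟩ : ∃ R : ℕ, R = t * (B + Dg + 3) := ⟨_, rfl⟩
  refine ⟨R, N₀ + a₁ + a₂ + Dg + 1, δ, hδ0, fun N hNN => ?_⟩
  obtain ⟨Y, hm₀, hY4, hN4, hYle, hYlt, hNt, hYCN, hYC, hk4⟩ := hN₀ N (by omega)
  have hX2 : (4 : ℝ) ≤ N := by exact_mod_cast hN4
  have hXp : (0 : ℝ) < N := by linarith
  intro b₁ b₂ g hb₁ hb₂ hg hadm F₁ F₂ hF₁ hF₂ hFγ
  have hNz : (4 : ℤ) ≤ N := by exact_mod_cast hN4
  have hNR : ∀ e : ℕ, e ≤ B + Dg + 3 → (N : ℤ) ^ e < (Y : ℤ) ^ (R + 1) := by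
    intro e he
    have h1 : N ^ e < Y ^ (R + 1) := by
      calc N ^ e ≤ (Y ^ t) ^ e := Nat.pow_le_pow_left hNt e
        _ = Y ^ (t * e) := by rw [← pow_mul]
        _ ≤ Y ^ R := by
            apply Nat.pow_le_pow_right (by omega)
            rw [hR]
            exact Nat.mul_le_mul_left _ he
        _ < Y ^ (R + 1) := Nat.pow_lt_pow_right (by omega) (by omega)
    exact_mod_cast h1
  have hN23 : 4 * (N : ℤ) ^ 2 ≤ (N : ℤ) ^ 3 := by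
    have : (N : ℤ) ^ 3 = N * (N : ℤ) ^ 2 := by ring
    rw [this]
    exact mul_le_mul_of_nonneg_right hNz (by positivity)
  have hN12 : (N : ℤ) ≤ (N : ℤ) ^ 2 := by nlinarith
  have hexp : (N : ℝ) ^ (1 - ε) ≤ (N : ℝ) ^ (1 - ε') :=
    Real.rpow_le_rpow_of_exponent_le (by linarith) (by linarith)
  have hbN : ∀ b : ℤ, (|b| : ℝ) ≤ (N : ℝ) ^ (1 - ε) → |b| ≤ (N : ℤ) := by
    intro b hb
    have h1 : (|b| : ℝ) ≤ N := by
      refine hb.trans (hexp.trans ?_)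
      calc (N : ℝ) ^ (1 - ε') ≤ (N : ℝ) ^ (1 : ℝ) :=
            Real.rpow_le_rpow_of_exponent_le (by linarith) (by linarith)
        _ = N := Real.rpow_one _
    exact_mod_cast h1
  have hbC : ∀ b : ℤ, (|b| : ℝ) ≤ (N : ℝ) ^ (1 - ε) → |b| * (Y : ℤ) ^ C ≤ (N : ℤ) := by
    intro b hb
    have h1 : (|b| : ℝ) * (Y : ℝ) ^ C ≤ N := by
      calc (|b| : ℝ) * (Y : ℝ) ^ C ≤ (N : ℝ) ^ (1 - ε') * (N : ℝ) ^ (ε' / 4) :=
            mul_le_mul (hb.trans hexp) hYC (by positivity) (by positivity)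
        _ = (N : ℝ) ^ (1 - ε' + ε' / 4) := (Real.rpow_add hXp _ _).symm
        _ ≤ (N : ℝ) ^ (1 : ℝ) := Real.rpow_le_rpow_of_exponent_le (by linarith) (by linarith)
        _ = N := Real.rpow_one _
    exact_mod_cast h1
  have hform : ∀ a : ℕ, a ≤ N → ∀ b : ℤ, |b| ≤ (N : ℤ) → ∀ n : ℕ, n ≤ N →
      |(a : ℤ) * n + b| < (Y : ℤ) ^ (R + 1) := by
    intro a ha b hb n hn
    refine lt_of_le_of_lt ?_ (hNR 3 (by omega))
    have h1 : |(a : ℤ) * n + b| ≤ (a : ℤ) * n + |b| := by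
      refine (abs_add_le _ _).trans (le_of_eq ?_)
      rw [abs_of_nonneg (by positivity : (0 : ℤ) ≤ (a : ℤ) * n)]
    have h2 : (a : ℤ) * n ≤ (N : ℤ) * N :=
      mul_le_mul (by exact_mod_cast ha) (by exact_mod_cast hn) (by positivity) (by positivity)
    have h3 : (N : ℤ) * N = (N : ℤ) ^ 2 := by ring
    linarith
  have hformg : ∀ j, ∀ n : ℕ, n ≤ N → |(g j).eval (n : ℤ)| < (Y : ℤ) ^ (R + 1) := by
    intro j n hn
    exact lt_of_le_of_lt (poly_size (by omega) (g j) (hg j).1 (hg j).2 n hn)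
      (hNR _ (by omega))
  have hFγ' : ∀ p : ℕ, p.Prime → p % q₀ = 1 % q₀ → Y < p → p ≤ Y ^ C → F₁ p + F₂ p = γ := by
    intro p hp hpq hYp hpY
    refine hFγ p hp hpq ?_ ?_
    · have : ((Y : ℝ) + 1) ≤ p := by exact_mod_cast hYp
      linarith
    · have h1 : (p : ℝ) ≤ (Y : ℝ) ^ C := by exact_mod_cast hpY
      refine h1.trans (hYC.trans ?_)
      exact Real.rpow_le_rpow_of_exponent_le (by linarith) (by linarith)
  by_contra hcon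
  push Not at hcon
  obtain ⟨Tr, hTr⟩ : ∃ Tr : Set Γ, Tr = {t | ((Vals a₁ a₂ b₁ b₂ g F₁ F₂ δ R N t).ncard : ℝ) <
      (N : ℝ) ^ (1 - ε)} := ⟨_, rfl⟩
  have hTr' : ∀ t, t ∈ Tr → ((Vals a₁ a₂ b₁ b₂ g F₁ F₂ δ R N t).ncard : ℝ) <
      (N : ℝ) ^ (1 - ε) := by
    intro t ht
    rw [hTr] at ht
    exact ht
  have hmain := hcount Y N (by omega) hYCN b₁ b₂ g (hbC b₁ hb₁) (hbC b₂ hb₂)
    (fun j => (hg j).1) hadm F₁ F₂ hF₁ hF₂ hFγ' Tr (by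
      intro h
      obtain ⟨j, hj⟩ := hcon h
      refine ⟨j * (Fintype.card Γ - 1), ?_⟩
      have h1 : h - (j * (Fintype.card Γ - 1)) • γ = h + j • γ := by
        have h2 : j • γ + (j * (Fintype.card Γ - 1)) • γ = 0 := by
          rw [← add_nsmul]
          have h3 : j + j * (Fintype.card Γ - 1) = j * Fintype.card Γ := by
            have h4 : 1 ≤ Fintype.card Γ := Fintype.card_pos
            obtain ⟨e, he⟩ := Nat.exists_eq_add_of_le h4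
            rw [he]
            simp only [Nat.add_sub_cancel_left]
            ring
          rw [h3, mul_nsmul, card_nsmul_eq_zero]
        rw [sub_eq_iff_eq_add, add_assoc, h2, add_zero]
      rw [h1, hTr]
      exact hj)
  obtain ⟨A, hA⟩ : ∃ A : Tr → Set ℕ, ∀ t, A t = Vals a₁ a₂ b₁ b₂ g F₁ F₂ δ R N t :=
    ⟨_, fun _ => rfl⟩
  have hAfin : ∀ t, (A t).Finite := fun t => by
    rw [hA]; exact Vals_finite _ _ _ _ _ _ _ _ _ _ _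
  have hsub : Ex (a₁ : ℤ) a₂ b₁ b₂ g F₁ F₂ Tr Y N ⊆ ⋃ t, A t := by
    rintro n ⟨h1, h2, h3, h4, h5, h6, h7, h8⟩
    rw [Set.mem_iUnion]
    refine ⟨⟨_, h8⟩, ?_⟩
    rw [hA]
    exact ⟨h1, h2, h3, h4,
      almostPrime_of_rough (by omega) hYlt h5 (hform a₁ (by omega) b₁ (hbN b₁ hb₁) n h2),
      almostPrime_of_rough (by omega) hYlt h6 (hform a₂ (by omega) b₂ (hbN b₂ hb₂) n h2),
      fun j => almostPrime_of_rough (by omega) hYlt (h7 j) (hformg j n h2), rfl⟩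
  have hle1 := Set.ncard_le_ncard hsub (Set.finite_iUnion hAfin)
  have hle2 := hle1.trans (Set.ncard_iUnion_le_of_fintype _)
  have hle3 : ((Ex (a₁ : ℤ) a₂ b₁ b₂ g F₁ F₂ Tr Y N).ncard : ℝ) ≤ k * (N : ℝ) ^ (1 - ε') := by
    have h1 : ((Ex (a₁ : ℤ) a₂ b₁ b₂ g F₁ F₂ Tr Y N).ncard : ℝ) ≤
        ∑ t : Tr, ((A t).ncard : ℝ) := by exact_mod_cast hle2
    refine h1.trans ?_
    calc ∑ t : Tr, ((A t).ncard : ℝ) ≤ ∑ _t : Tr, (N : ℝ) ^ (1 - ε') := by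
          apply Finset.sum_le_sum
          intro t _
          rw [hA]
          exact (le_of_lt (hTr' t t.2)).trans hexp
      _ = (Fintype.card Tr : ℝ) * (N : ℝ) ^ (1 - ε') := by
          rw [Finset.sum_const, card_univ, nsmul_eq_mul]
      _ ≤ k * (N : ℝ) ^ (1 - ε') := by
          apply mul_le_mul_of_nonneg_right _ (by positivity)
          have h3 : Fintype.card Tr ≤ Fintype.card Γ :=
            Fintype.card_le_of_injective _ Subtype.val_injective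
          rw [hk]
          exact_mod_cast h3
  have hfin : (N : ℝ) ≤ (Y : ℝ) ^ C * (k * (N : ℝ) ^ (1 - ε')) := by
    calc (N : ℝ) ≤ (Y : ℝ) ^ C * ((Ex (a₁ : ℤ) a₂ b₁ b₂ g F₁ F₂ Tr Y N).ncard : ℝ) := by
          exact_mod_cast hmain
      _ ≤ _ := mul_le_mul_of_nonneg_left hle3 (by positivity)
  have hlt : (Y : ℝ) ^ C * (k * (N : ℝ) ^ (1 - ε')) < N := by
    calc (Y : ℝ) ^ C * (k * (N : ℝ) ^ (1 - ε'))
        ≤ (N : ℝ) ^ (ε' / 4) * (k * (N : ℝ) ^ (1 - ε')) :=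
          mul_le_mul_of_nonneg_right hYC (by positivity)
      _ < (N : ℝ) ^ (ε' / 4) * ((N : ℝ) ^ (ε' / 4) * (N : ℝ) ^ (1 - ε')) := by
          apply mul_lt_mul_of_pos_left _ (by positivity)
          exact mul_lt_mul_of_pos_right hk4 (by positivity)
      _ = (N : ℝ) ^ (ε' / 4 + (ε' / 4 + (1 - ε'))) := by
          rw [Real.rpow_add hXp, Real.rpow_add hXp]
      _ ≤ (N : ℝ) ^ (1 : ℝ) := Real.rpow_le_rpow_of_exponent_le (by linarith) (by linarith)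
      _ = N := Real.rpow_one _
  linarith

end Pool.Agent.N576.UD
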